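import Mathlib
import Pool.Agent.LongHole.Chrom

set_option autoImplicit false

namespace Pool.Agent.Results.MP_c8b286_co.FactorialBound

/-- A finite nonempty graph with no induced cycle of length at least five and clique number `ω`
has chromatic number at most `2 ^ (ω - 1) * ω!`. -/
theorem result : ∀ (V : Type) [Fintype V] [Nonempty V] (G : SimpleGraph V),
    (∀ n : ℕ, 5 ≤ n → IsEmpty (SimpleGraph.cycleGraph n ↪g G)) →
    G.chromaticNumber ≤ ((2 ^ (G.cliqueNum - 1) * G.cliqueNum.factorial : ℕ) : ℕ∞) := by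
  intro V _ hV G hG
  have hle : ∀ K : Finset V, G.IsClique (K : Set V) → K.card ≤ G.cliqueNum :=
    fun K hK => hK.card_le_cliqueNum
  obtain ⟨v⟩ := hV
  have h1 : 1 ≤ G.cliqueNum := by
    have := hle {v} (by simp)
    simpa using this
  obtain ⟨w, hw⟩ : ∃ w, G.cliqueNum = w + 1 := ⟨G.cliqueNum - 1, by omega⟩
  rw [hw] at hle ⊢
  have := LongHole.colorable_bound w V G hG hle
  exact this.chromaticNumber_le

end Pool.Agent.Results.MP_c8b286_co.FactorialBound
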