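import Mathlib
import Pool.Agent.LongHole.LocalQ

set_option autoImplicit false

namespace Pool.Agent.Results.MP_c8b286_co.LocalColour

open SimpleGraph

/-- The union of the maximum cliques of `G` which contain neither `q` nor `z` nor a neighbour of
`q` or of `z`. -/
def Far {V : Type} (G : SimpleGraph V) (q z : V) : Set V :=
  {v | ∃ Q : Finset V, G.IsNClique G.cliqueNum Q ∧ v ∈ Q ∧
    ∀ u ∈ Q, (u ≠ q ∧ ¬ G.Adj q u) ∧ (u ≠ z ∧ ¬ G.Adj z u)}

/-- Let `G` be a finite graph with at least one edge and no induced cycle of length at least five.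
Suppose that for any two distinct nonadjacent vertices `q, z` the maximum cliques away from `q`
and `z` induce a graph `F` without induced four-cycle, or `F` together with any vertex `s` can be
coloured with `cliqueNum` colours. Then there is a partition of the vertices into two parts
without maximum clique. This applies to all graphs of the class which have no induced subgraph
consisting of a four-cycle and two isolated vertices. -/
theorem result : ∀ (V : Type) [Fintype V] [DecidableEq V] (G : SimpleGraph V),
    (∃ u v : V, G.Adj u v) →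
    (∀ n : ℕ, 5 ≤ n → IsEmpty (cycleGraph n ↪g G)) →
    (∀ q z : V, q ≠ z → ¬ G.Adj q z →
      IsEmpty (cycleGraph 4 ↪g G.induce (Far G q z)) ∨
      ∀ s : V, (G.induce (insert s (Far G q z))).Colorable G.cliqueNum) →
    ∃ A : Finset V, ∀ s : Finset V,
      (G.IsClique (s : Set V) ∧ ∀ t : Finset V, G.IsClique (t : Set V) → t.card ≤ s.card) →
      ¬ s ⊆ A ∧ ¬ s ⊆ Aᶜ := by
  classical
  intro V _ _ G hE hG hloc
  obtain ⟨Q₀, hQ₀⟩ := G.exists_isNClique_cliqueNum
  have hle : ∀ t : Finset V, G.IsClique (t : Set V) → t.card ≤ G.cliqueNum := by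
    intro t ht
    exact ht.card_le_cliqueNum
  have hmax : ∀ s : Finset V, (G.IsClique (s : Set V) ∧
      ∀ t : Finset V, G.IsClique (t : Set V) → t.card ≤ s.card) → s.card = G.cliqueNum := by
    intro s hs
    refine le_antisymm (hle s hs.1) ?_
    have := hs.2 Q₀ hQ₀.1
    rwa [hQ₀.2] at this
  have hw : 2 ≤ G.cliqueNum := by
    obtain ⟨u, v, huv⟩ := hE
    have h := hle {u, v} (by
      rw [Finset.coe_pair]
      exact SimpleGraph.isClique_pair.mpr fun _ => huv)
    rwa [Finset.card_pair huv.ne] at h
  have hfree : G.CliqueFree (G.cliqueNum + 1) := by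
    intro t ht
    have := hle t ht.1
    rw [ht.2] at this
    omega
  have heq : ∀ q z : V, LongHole.remote G G.cliqueNum {q, z} = Far G q z := by
    intro q z
    ext v
    constructor
    · rintro ⟨Q, h1, h2, h3⟩
      exact ⟨Q, h1, h2, fun u hu => ⟨h3 u hu q (Or.inl rfl), h3 u hu z (Or.inr rfl)⟩⟩
    · rintro ⟨Q, h1, h2, h3⟩
      refine ⟨Q, h1, h2, fun u hu b hb => ?_⟩
      rcases hb with hb | hb
      · rw [hb]
        exact (h3 u hu).1
      · rw [Set.mem_singleton_iff] at hb
        rw [hb]
        exact (h3 u hu).2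
  obtain ⟨A, hA⟩ := LongHole.local_col hG hw hfree (fun q z hqz hnqz s => by
    rw [heq q z]
    rcases hloc q z hqz hnqz with h | h
    · exact LongHole.chord_colorable hG (by omega) hfree _ (LongHole.noC4_of_induce h) s
    · exact h s) _ Finset.univ le_rfl
  refine ⟨A, fun s hs => hA s ?_ (hmax s hs)⟩
  intro a ha b hb hab
  exact ⟨hs.1 ha hb hab, by simp, by simp⟩

end Pool.Agent.Results.MP_c8b286_co.LocalColour
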