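import Mathlib
import Pool.Agent.P6F.RootEmb

set_option autoImplicit false

namespace Pool.Agent.Results.MP_c8b286_co.PathRoot

/-- Let `G` be a finite simple graph with at least one edge and without induced cycles of length
five or six. Suppose that for every set `X` of vertices which contains both ends of an edge one of
the following holds: `G[X]` contains no induced path on six vertices; or some vertex `r` of `G[X]`
is not an end of an induced path on five vertices of `G[X]`; or `X` is not the whole vertex set
and has a subset `A` such that no maximum clique of `G[X]` lies inside `A` or inside `X \ A`.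
Then there is a set `A` of vertices such that no maximum clique of `G` lies inside `A` or inside
its complement. -/
theorem result : ∀ (V : Type) [Fintype V] [DecidableEq V] (G : SimpleGraph V),
    (∃ u v : V, G.Adj u v) →
    IsEmpty (SimpleGraph.cycleGraph 5 ↪g G) → IsEmpty (SimpleGraph.cycleGraph 6 ↪g G) →
    (∀ X : Finset V, (∃ u ∈ X, ∃ v ∈ X, G.Adj u v) →
      IsEmpty (SimpleGraph.pathGraph 6 ↪g G.induce (X : Set V)) ∨
      (∃ r : (X : Set V), ∀ φ : SimpleGraph.pathGraph 5 ↪g G.induce (X : Set V), φ 0 ≠ r) ∨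
      (X ≠ Finset.univ ∧ ∃ A ⊆ X, ∀ s ⊆ X,
        (G.IsClique (s : Set V) ∧
          ∀ t ⊆ X, G.IsClique (t : Set V) → t.card ≤ s.card) →
        ¬ s ⊆ A ∧ ¬ s ⊆ X \ A)) →
    ∃ A : Finset V, ∀ s : Finset V,
      (G.IsClique (s : Set V) ∧
        ∀ t : Finset V, G.IsClique (t : Set V) → t.card ≤ s.card) →
      ¬ s ⊆ A ∧ ¬ s ⊆ Aᶜ := by
  intro V _ _ G hE h5 h6 hX
  obtain ⟨u, v, huv⟩ := hE
  obtain ⟨K, _, _, hKc, hKm⟩ := P6F.exists_maxclique (G := G) (Finset.univ : Finset V)
    ⟨u, Finset.mem_univ u⟩
  have hK2 : 2 ≤ K.card := by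
    have h3 := hKm {u, v} (Finset.subset_univ _) (by
      intro x hx y hy hne
      rw [Finset.mem_coe, Finset.mem_insert, Finset.mem_singleton] at hx hy
      rcases hx with rfl | rfl <;> rcases hy with rfl | rfl
      · exact absurd rfl hne
      · exact huv
      · exact huv.symm
      · exact absurd rfl hne)
    rwa [Finset.card_pair huv.ne] at h3
  have h5' := P6F.noC5_of h5
  have h6' := P6F.noC6_of h6
  obtain ⟨A, _, hA1, hA2⟩ := P6F.good_all2 (G := G) (by
    intro X hXe
    rcases hX X hXe with h | ⟨r, hr⟩ | ⟨_, B, hB, hBs⟩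
    · left
      refine ⟨fun a b c d e _ _ _ _ _ => h5' a b c d e,
        fun a b c d e f _ _ _ _ _ _ => h6' a b c d e f, ?_⟩
      intro a b c d e f ha hb hc hd he hf
      exact P6F.noP6_of h ⟨a, by exact_mod_cast ha⟩ ⟨b, by exact_mod_cast hb⟩
        ⟨c, by exact_mod_cast hc⟩ ⟨d, by exact_mod_cast hd⟩ ⟨e, by exact_mod_cast he⟩
        ⟨f, by exact_mod_cast hf⟩
    · right
      left
      refine ⟨r, by exact_mod_cast r.2, ?_, fun b c d e _ _ _ _ => h5' r b c d e⟩
      intro b c d e hb hc hd he
      exact P6F.p5_of hr ⟨b, by exact_mod_cast hb⟩ ⟨c, by exact_mod_cast hc⟩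
        ⟨d, by exact_mod_cast hd⟩ ⟨e, by exact_mod_cast he⟩
    · right
      right
      intro k _ hDk
      by_cases hk1 : P6F.CLE G X k
      · refine ⟨X, Finset.Subset.refl _, hk1, ?_⟩
        intro s hs _
        rw [Finset.sdiff_self] at hs
        rw [Finset.subset_empty.1 hs]
        simp
      · have hmaxc : ∀ s ⊆ X, G.IsClique (s : Set V) → k < s.card →
            ∀ t ⊆ X, G.IsClique (t : Set V) → t.card ≤ s.card := by
          intro s _ _ hks t ht htc
          have := hDk t ht htc
          omega
        refine ⟨B, hB, ?_, ?_⟩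
        · intro s hs hsc
          by_contra hcon
          push Not at hcon
          exact (hBs s (hs.trans hB) ⟨hsc, hmaxc s (hs.trans hB) hsc hcon⟩).1 hs
        · intro s hs hsc
          by_contra hcon
          push Not at hcon
          have hsX : s ⊆ X := hs.trans Finset.sdiff_subset
          exact (hBs s hsX ⟨hsc, hmaxc s hsX hsc hcon⟩).2 hs)
    (Finset.univ : Finset V) (K.card - 1) (by omega) (by
      intro s _ hc
      have := hKm s (Finset.subset_univ _) hc
      omega)
  refine ⟨A, ?_⟩
  intro s hs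
  have h4 := hs.2 K hKc
  refine ⟨fun h => ?_, fun h => ?_⟩
  · have := hA1 s h hs.1
    omega
  · have := hA2 s (by
      intro x hx
      exact Finset.mem_sdiff.2 ⟨Finset.mem_univ x, Finset.mem_compl.1 (h hx)⟩) hs.1
    omega

end Pool.Agent.Results.MP_c8b286_co.PathRoot
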