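import Mathlib
import Pool.Agent.LongHole.StarQ

set_option autoImplicit false

namespace Pool.Agent.Results.MP_c8b286_co.StarCutset

/-- Let `G` be a finite connected graph with at least one edge and no induced cycle of length at
least five, and let `r` be a vertex. If some maximum clique `s` lies inside the neighbourhood
`N(r)` or inside its complement, then some neighbour `q` of `r` is the centre of a star cutset:
there is a set `X` containing `q`, not containing `r`, all of whose other members are adjacent
to `q`, such that `G - X` has no path from `r` to some vertex `k` of `s`. -/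
theorem result : ∀ (V : Type) [Fintype V] [DecidableEq V] (G : SimpleGraph V), G.Connected →
    (∃ u v : V, G.Adj u v) →
    (∀ n : ℕ, 5 ≤ n → IsEmpty (SimpleGraph.cycleGraph n ↪g G)) →
    ∀ (r : V) (s : Finset V),
      (G.IsClique (s : Set V) ∧ ∀ t : Finset V, G.IsClique (t : Set V) → t.card ≤ s.card) →
      ((s : Set V) ⊆ G.neighborSet r ∨ (s : Set V) ⊆ (G.neighborSet r)ᶜ) →
      ∃ q : V, G.Adj r q ∧ ∃ X : Set V, q ∈ X ∧ (∀ x ∈ X, x ≠ q → G.Adj q x) ∧
        ∃ (hr : r ∈ Xᶜ) (k : V) (hk : k ∈ Xᶜ), k ∈ s ∧
          ¬ (G.induce Xᶜ).Reachable ⟨r, hr⟩ ⟨k, hk⟩ := by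
  intro V _ _ G hconn hE hG r s hs hsub
  rcases hsub with hsub | hsub
  · exact (LongHole.MaxC.not_sub_nbr hs (fun x hx => hsub (by exact_mod_cast hx))).elim
  · exact LongHole.star_part hG hconn hE hs (fun x hx => hsub (by exact_mod_cast hx))

end Pool.Agent.Results.MP_c8b286_co.StarCutset
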